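import Pool.Agent.Helper47.QL.K8

/-! # Project QL, block CT: means of functions of polynomial growth with discrete spectrum
(copies of Helper99/MS/Carl and Helper99/MS/Trig with the weight `pw` and the kernel `KJ`) -/

set_option autoImplicit false

namespace Pool.Agent.Helper47.QL

open Finset MeasureTheory Set Filter Topology
open Pool.Agent.Helper95.QL

theorem pw_nonneg (v : ℝ) : 0 ≤ pw v := (pw_pos v).le

/-- Growth version of Carleman orthogonality (after helper13, helper99), polynomial growth: a function whose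
Carleman transform extends continuously across a segment of the imaginary axis is orthogonal to
kernels with spectrum in that segment. -/
theorem carleman_p {g : ℝ → ℂ} (hg : Continuous g) {C : ℝ} (hC0 : 0 ≤ C) (hC : ∀ v, ‖g v‖ ≤ C * pw v) {G : ℂ → ℂ}
    {r : ℝ} (hr : 0 < r)
    (hp : ∀ s : ℂ, 0 < s.re → s.re < r →
      ∫ v in Set.Ioi (0:ℝ), g v * Complex.exp (-(s * v)) = G s)
    (hm : ∀ s : ℂ, -r < s.re → s.re < 0 →
      ∫ v in Set.Iic (0:ℝ), g v * Complex.exp (-(s * v)) = -G s)
    {T : ℝ}
    (hlim : ∀ t ∈ Set.Icc (-T) T, ∃ ℓ, Tendsto G (𝓝[{s : ℂ | s.re ≠ 0}] (t * Complex.I)) (𝓝 ℓ))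
    {κ : ℝ → ℂ} (hκ : Integrable κ) (hκT : ∀ t, t ∉ Set.Icc (-T) T → κ t = 0)
    {K : ℝ → ℂ} (hK : ∀ v : ℝ, K v = ∫ t : ℝ, κ t * Complex.exp (-(t * v * Complex.I)))
    (hKm : AEStronglyMeasurable K volume) (hKi : Integrable (fun v => pw v * ‖K v‖)) :
    ∫ v, g v * K v = 0 := by
  -- Step A
  have stepA : ∀ σ : ℝ, 0 < σ → σ < r →
      ∫ v : ℝ, g v * (Real.exp (-σ * |v|) : ℂ) * K v =
      ∫ t : ℝ, κ t * (G (σ + t * Complex.I) - G (-σ + t * Complex.I)) := by
    intro σ hσ hσr
    have hgi : Integrable (fun v : ℝ => g v * (Real.exp (-σ * |v|) : ℂ)) := by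
      refine Integrable.mono' ((pw_exp_int hσ).const_mul C) ?_ ?_
      · apply Continuous.aestronglyMeasurable
        fun_prop
      · apply Filter.Eventually.of_forall
        intro v
        rw [norm_mul, Complex.norm_real, Real.norm_of_nonneg (Real.exp_pos _).le, ← mul_assoc]
        exact mul_le_mul_of_nonneg_right (hC v) (Real.exp_pos _).le
    have hprod : Integrable (Function.uncurry fun (v t : ℝ) =>
        (g v * (Real.exp (-σ * |v|) : ℂ)) * κ t * Complex.exp (-(t * v * Complex.I)))
        (volume.prod volume) := by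
      have h1 := hgi.mul_prod hκ
      have h2 := h1.mul_bdd (c := 1)
        (g := fun z : ℝ × ℝ => Complex.exp (-((z.2 : ℂ) * z.1 * Complex.I))) ?_ ?_
      · exact h2
      · apply Continuous.aestronglyMeasurable
        fun_prop
      · apply Filter.Eventually.of_forall
        intro z
        rw [Complex.norm_exp]
        simp
    have e1 : ∫ v : ℝ, g v * (Real.exp (-σ * |v|) : ℂ) * K v =
        ∫ v : ℝ, ∫ t : ℝ, (g v * (Real.exp (-σ * |v|) : ℂ)) * κ t * Complex.exp (-(t * v * Complex.I)) := by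
      congr 1
      ext v
      rw [hK v, ← integral_const_mul]
      congr 1
      ext t
      ring
    rw [e1, integral_integral_swap hprod]
    congr 1
    ext t
    have e2 : ∫ v : ℝ, (g v * (Real.exp (-σ * |v|) : ℂ)) * κ t * Complex.exp (-(t * v * Complex.I)) =
        κ t * ∫ v : ℝ, (g v * (Real.exp (-σ * |v|) : ℂ)) * Complex.exp (-(t * v * Complex.I)) := by
      rw [← integral_const_mul]
      congr 1
      ext v
      ring
    rw [e2]
    congr 1
    have hi : Integrable (fun v : ℝ => (g v * (Real.exp (-σ * |v|) : ℂ)) *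
        Complex.exp (-(t * v * Complex.I))) := by
      apply hgi.mul_bdd (c := 1)
      · apply Continuous.aestronglyMeasurable
        fun_prop
      · apply Filter.Eventually.of_forall
        intro z
        rw [Complex.norm_exp]
        simp
    rw [← integral_add_compl (measurableSet_Ioi (a := (0:ℝ))) hi, Set.compl_Ioi]
    have h1 := hp (σ + t * Complex.I) (by simpa using hσ) (by simpa using hσr)
    have h2 := hm (-σ + t * Complex.I) (by simpa using hσr) (by simpa using hσ)
    have e3 : ∫ v in Set.Ioi (0:ℝ), (g v * (Real.exp (-σ * |v|) : ℂ)) *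
        Complex.exp (-(t * v * Complex.I)) = G (σ + t * Complex.I) := by
      rw [← h1]
      apply setIntegral_congr_fun measurableSet_Ioi
      intro v hv
      have hv' : (0:ℝ) < v := hv
      simp only
      rw [mul_assoc, abs_of_pos hv', Complex.ofReal_exp, ← Complex.exp_add]
      congr 2
      push_cast
      ring
    have e4 : ∫ v in Set.Iic (0:ℝ), (g v * (Real.exp (-σ * |v|) : ℂ)) *
        Complex.exp (-(t * v * Complex.I)) = -G (-σ + t * Complex.I) := by
      rw [← h2]
      apply setIntegral_congr_fun measurableSet_Iic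
      intro v hv
      have hv' : v ≤ 0 := hv
      simp only
      rw [mul_assoc, abs_of_nonpos hv', Complex.ofReal_exp, ← Complex.exp_add]
      congr 2
      push_cast
      ring
    rw [e3, e4]
    ring
  -- Step B
  have stepB : Tendsto (fun σ : ℝ => ∫ v : ℝ, g v * (Real.exp (-σ * |v|) : ℂ) * K v) (𝓝[>] 0)
      (𝓝 (∫ v, g v * K v)) := by
    apply tendsto_integral_filter_of_dominated_convergence (bound := fun v => C * (pw v * ‖K v‖))
    · apply Filter.Eventually.of_forall
      intro σ
      apply AEStronglyMeasurable.mul _ hKm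
      apply Continuous.aestronglyMeasurable
      fun_prop
    · filter_upwards [self_mem_nhdsWithin] with σ hσ
      have hσ' : (0:ℝ) < σ := hσ
      apply Filter.Eventually.of_forall
      intro v
      rw [norm_mul, norm_mul, Complex.norm_real, Real.norm_of_nonneg (Real.exp_pos _).le]
      have h1 : Real.exp (-σ * |v|) ≤ 1 := by
        apply Real.exp_le_one_iff.2
        have := abs_nonneg v
        nlinarith
      rw [← mul_assoc]
      apply mul_le_mul_of_nonneg_right _ (norm_nonneg _)
      calc ‖g v‖ * Real.exp (-σ * |v|) ≤ (C * pw v) * 1 :=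
            mul_le_mul (hC v) h1 (Real.exp_pos _).le (mul_nonneg hC0 (pw_nonneg v))
        _ = C * pw v := mul_one _
    · exact hKi.const_mul C
    · apply Filter.Eventually.of_forall
      intro v
      have h1 : Tendsto (fun σ : ℝ => g v * (Real.exp (-σ * |v|) : ℂ) * K v) (𝓝 0)
          (𝓝 (g v * (Real.exp (-(0:ℝ) * |v|) : ℂ) * K v)) := by
        apply Continuous.tendsto
        fun_prop
      simp only [neg_zero, zero_mul, Real.exp_zero, Complex.ofReal_one, mul_one] at h1
      exact h1.mono_left nhdsWithin_le_nhds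
  -- Step C
  have stepC : Tendsto (fun σ : ℝ => ∫ t : ℝ, κ t * (G (σ + t * Complex.I) - G (-σ + t * Complex.I)))
      (𝓝[>] 0) (𝓝 0) := by
    rw [Metric.tendsto_nhds]
    intro ε hε
    set η := ε / (2 * (∫ t, ‖κ t‖) + 1) with hη
    have hI : 0 ≤ ∫ t, ‖κ t‖ := integral_nonneg (fun _ => norm_nonneg _)
    have hη0 : 0 < η := by positivity
    have hP : ∀ t₀ ∈ Set.Icc (-T) T, ∀ᶠ z : ℝ × ℝ in 𝓝 ((0:ℝ), t₀), 0 < z.1 →
        ‖G (z.1 + z.2 * Complex.I) - G (-z.1 + z.2 * Complex.I)‖ ≤ 2 * η := by
      intro t₀ ht₀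
      obtain ⟨ℓ, hℓ⟩ := hlim t₀ ht₀
      have h1 : ∀ᶠ s in 𝓝 (t₀ * Complex.I : ℂ), s.re ≠ 0 → dist (G s) ℓ < η := by
        have := Metric.tendsto_nhds.1 hℓ η hη0
        rw [eventually_nhdsWithin_iff] at this
        exact this
      have c1 : Tendsto (fun z : ℝ × ℝ => (z.1 + z.2 * Complex.I : ℂ)) (𝓝 ((0:ℝ), t₀))
          (𝓝 (t₀ * Complex.I)) := by
        have : Continuous (fun z : ℝ × ℝ => (z.1 + z.2 * Complex.I : ℂ)) := by fun_prop
        have h := this.tendsto ((0:ℝ), t₀)
        simpa using h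
      have c2 : Tendsto (fun z : ℝ × ℝ => (-z.1 + z.2 * Complex.I : ℂ)) (𝓝 ((0:ℝ), t₀))
          (𝓝 (t₀ * Complex.I)) := by
        have : Continuous (fun z : ℝ × ℝ => (-z.1 + z.2 * Complex.I : ℂ)) := by fun_prop
        have h := this.tendsto ((0:ℝ), t₀)
        simpa using h
      filter_upwards [c1.eventually h1, c2.eventually h1] with z hz1 hz2 hz
      have a1 := hz1 (by simpa using hz.ne')
      have a2 := hz2 (by simpa using hz.ne')
      rw [dist_eq_norm] at a1 a2
      calc ‖G (z.1 + z.2 * Complex.I) - G (-z.1 + z.2 * Complex.I)‖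
          = ‖(G (z.1 + z.2 * Complex.I) - ℓ) - (G (-z.1 + z.2 * Complex.I) - ℓ)‖ := by
            congr 1; ring
        _ ≤ ‖G (z.1 + z.2 * Complex.I) - ℓ‖ + ‖G (-z.1 + z.2 * Complex.I) - ℓ‖ := norm_sub_le _ _
        _ ≤ 2 * η := by linarith
    have hev := isCompact_Icc.eventually_forall_of_forall_eventually
      (P := fun σ t : ℝ => 0 < σ → ‖G (σ + t * Complex.I) - G (-σ + t * Complex.I)‖ ≤ 2 * η) hP
    filter_upwards [hev.filter_mono nhdsWithin_le_nhds, self_mem_nhdsWithin] with σ hσ hσ0
    have hσ' : (0:ℝ) < σ := hσ0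
    rw [dist_zero_right]
    have hb : ‖∫ t : ℝ, κ t * (G (σ + t * Complex.I) - G (-σ + t * Complex.I))‖ ≤
        ∫ t : ℝ, (2 * η) * ‖κ t‖ := by
      apply norm_integral_le_of_norm_le (hκ.norm.const_mul _)
      apply Filter.Eventually.of_forall
      intro t
      by_cases ht : t ∈ Set.Icc (-T) T
      · rw [norm_mul, mul_comm]
        exact mul_le_mul_of_nonneg_right (hσ t ht hσ') (norm_nonneg _)
      · rw [hκT t ht]
        simp
    rw [integral_const_mul] at hb
    refine lt_of_le_of_lt hb ?_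
    rw [hη]
    have : 2 * (ε / (2 * (∫ t, ‖κ t‖) + 1)) * ∫ t, ‖κ t‖ = ε * (2 * (∫ t, ‖κ t‖)) / (2 * (∫ t, ‖κ t‖) + 1) := by
      field_simp
    rw [this, div_lt_iff₀ (by positivity)]
    nlinarith
  have hA' : Tendsto (fun σ : ℝ => ∫ v : ℝ, g v * (Real.exp (-σ * |v|) : ℂ) * K v) (𝓝[>] 0) (𝓝 0) := by
    apply stepC.congr'
    filter_upwards [Ioo_mem_nhdsGT hr] with σ hσ
    exact (stepA σ hσ.1 hσ.2).symm
  exact tendsto_nhds_unique stepB hA'

theorem gKJ_int {g : ℝ → ℂ} (hg : Continuous g) {C : ℝ} (hC0 : 0 ≤ C) (hC : ∀ v, ‖g v‖ ≤ C * pw v)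
    {L : ℝ} (hL : 0 < L) (u : ℝ) : Integrable (fun v => g (v + u) * (KJ L v : ℂ)) := by
  refine Integrable.mono' ((pw_KJ_int hL).const_mul (C * pw u)) ?_ ?_
  · apply AEStronglyMeasurable.mul
    · exact (hg.comp (continuous_add_const u)).aestronglyMeasurable
    · exact Complex.continuous_ofReal.comp_aestronglyMeasurable KJ_meas
  · apply Filter.Eventually.of_forall
    intro v
    rw [norm_mul, Complex.norm_real, Real.norm_of_nonneg (KJ_nonneg hL v)]
    rw [← mul_assoc]
    apply mul_le_mul_of_nonneg_right _ (KJ_nonneg hL v)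
    calc ‖g (v + u)‖ ≤ C * pw (v + u) := hC _
      _ ≤ C * (pw v * pw u) := mul_le_mul_of_nonneg_left (pw_add v u) hC0
      _ = _ := by ring

/-- The Fejér mean of level `L` is an exponential polynomial with frequencies in `Γ`. -/
theorem trig_repr_p {g : ℝ → ℂ} (hg : Continuous g) {C : ℝ} (hC0 : 0 ≤ C)
    (hC : ∀ v, ‖g v‖ ≤ C * pw v) {G : ℂ → ℂ}
    {r : ℝ} (hr : 0 < r)
    (hp : ∀ s : ℂ, 0 < s.re → s.re < r →
      ∫ v in Set.Ioi (0:ℝ), g v * Complex.exp (-(s * v)) = G s)
    (hm : ∀ s : ℂ, -r < s.re → s.re < 0 →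
      ∫ v in Set.Iic (0:ℝ), g v * Complex.exp (-(s * v)) = -G s)
    {L : ℝ} (hL : 0 < L) (Γ : Finset ℝ) (c : ℝ → ℂ)
    (hΓ : ∀ t ∈ Set.Icc (-L) L,
      ∃ ℓ, Tendsto (fun s => G s - ∑ γ ∈ Γ, c γ / (s - γ * Complex.I))
        (𝓝[{s : ℂ | s.re ≠ 0}] (t * Complex.I)) (𝓝 ℓ)) :
    ∃ b : ℝ → ℂ, ∀ u, ∫ v, g (v + u) * (KJ L v : ℂ) =
      ∑ γ ∈ Γ, b γ * Complex.exp (γ * u * Complex.I) := by
  refine ⟨fun γ => c γ * ∫ v : ℝ, Complex.exp (γ * v * Complex.I) * (KJ L v : ℂ), ?_⟩
  intro u
  obtain ⟨κ₀, k1, k2, k3⟩ := KJ_sp hL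
  -- g₁
  set g₁ : ℝ → ℂ := fun v => g v - ∑ γ ∈ Γ, c γ * Complex.exp (γ * v * Complex.I) with hg₁
  have hg₁c : Continuous g₁ := by
    apply hg.sub
    apply continuous_finsetSum
    intro γ _
    fun_prop
  have hn1 : ∀ (γ v : ℝ), ‖Complex.exp (γ * v * Complex.I)‖ = 1 := by
    intro γ v
    rw [Complex.norm_exp]
    simp
  have hSc : 0 ≤ ∑ γ ∈ Γ, ‖c γ‖ := Finset.sum_nonneg (fun _ _ => norm_nonneg _)
  have hg₁b : ∀ v, ‖g₁ v‖ ≤ (C + ∑ γ ∈ Γ, ‖c γ‖) * pw v := by
    intro v
    refine (norm_sub_le _ _).trans ?_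
    rw [add_mul]
    apply add_le_add (hC v)
    refine (norm_sum_le _ _).trans ?_
    calc ∑ γ ∈ Γ, ‖c γ * Complex.exp (γ * v * Complex.I)‖ = (∑ γ ∈ Γ, ‖c γ‖) * 1 := by
          rw [mul_one]
          apply Finset.sum_congr rfl
          intro γ _
          rw [norm_mul, hn1, mul_one]
      _ ≤ _ := mul_le_mul_of_nonneg_left (one_le_pw v) hSc
  have hexp_p : ∀ (γ : ℝ) (s : ℂ), 0 < s.re → IntegrableOn (fun v : ℝ => Complex.exp (γ * v * Complex.I) *
      Complex.exp (-(s * v))) (Set.Ioi 0) ∧ ∫ v in Set.Ioi (0:ℝ), Complex.exp (γ * v * Complex.I) *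
      Complex.exp (-(s * v)) = 1 / (s - γ * Complex.I) := by
    intro γ s hs
    have e : (fun v : ℝ => Complex.exp (γ * v * Complex.I) * Complex.exp (-(s * v))) =
        fun v : ℝ => Complex.exp ((γ * Complex.I - s) * v) := by
      ext v
      rw [← Complex.exp_add]
      congr 1
      ring
    have hre : (γ * Complex.I - s).re < 0 := by simpa using hs
    rw [e]
    refine ⟨integrableOn_exp_mul_complex_Ioi hre 0, ?_⟩
    rw [integral_exp_mul_complex_Ioi hre]
    simp only [Complex.ofReal_zero, mul_zero, Complex.exp_zero]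
    rw [← neg_sub s (γ * Complex.I), neg_div_neg_eq]
  have hexp_m : ∀ (γ : ℝ) (s : ℂ), s.re < 0 → IntegrableOn (fun v : ℝ => Complex.exp (γ * v * Complex.I) *
      Complex.exp (-(s * v))) (Set.Iic 0) ∧ ∫ v in Set.Iic (0:ℝ), Complex.exp (γ * v * Complex.I) *
      Complex.exp (-(s * v)) = -(1 / (s - γ * Complex.I)) := by
    intro γ s hs
    have e : (fun v : ℝ => Complex.exp (γ * v * Complex.I) * Complex.exp (-(s * v))) =
        fun v : ℝ => Complex.exp ((γ * Complex.I - s) * v) := by
      ext v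
      rw [← Complex.exp_add]
      congr 1
      ring
    have hre : 0 < (γ * Complex.I - s).re := by simpa using hs
    rw [e]
    refine ⟨integrableOn_exp_mul_complex_Iic hre 0, ?_⟩
    rw [integral_exp_mul_complex_Iic hre]
    simp only [Complex.ofReal_zero, mul_zero, Complex.exp_zero]
    rw [← neg_sub s (γ * Complex.I), div_neg]
  have hgi_p : ∀ s : ℂ, 0 < s.re → IntegrableOn (fun v : ℝ => g v * Complex.exp (-(s * v))) (Set.Ioi 0) := by
    intro s hs
    refine Integrable.mono' ((pw_exp_int hs).integrableOn.const_mul C) ?_ ?_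
    · apply Continuous.aestronglyMeasurable
      fun_prop
    · rw [ae_restrict_iff' measurableSet_Ioi]
      apply Filter.Eventually.of_forall
      intro v hv
      have hv' : (0:ℝ) < v := hv
      rw [norm_mul, Complex.norm_exp, abs_of_pos hv', ← mul_assoc]
      have : (-(s * (v:ℂ))).re = -s.re * v := by simp
      rw [this]
      exact mul_le_mul_of_nonneg_right (hC v) (Real.exp_pos _).le
  have hgi_m : ∀ s : ℂ, s.re < 0 → IntegrableOn (fun v : ℝ => g v * Complex.exp (-(s * v))) (Set.Iic 0) := by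
    intro s hs
    have hs' : 0 < -s.re := by linarith
    refine Integrable.mono' ((pw_exp_int hs').integrableOn.const_mul C) ?_ ?_
    · apply Continuous.aestronglyMeasurable
      fun_prop
    · rw [ae_restrict_iff' measurableSet_Iic]
      apply Filter.Eventually.of_forall
      intro v hv
      have hv' : v ≤ 0 := hv
      rw [norm_mul, Complex.norm_exp, abs_of_nonpos hv', ← mul_assoc]
      have : (-(s * (v:ℂ))).re = - -s.re * -v := by simp
      rw [this]
      exact mul_le_mul_of_nonneg_right (hC v) (Real.exp_pos _).le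
  have hexpand : ∀ (s : ℂ) (v : ℝ), g₁ v * Complex.exp (-(s * v)) = g v * Complex.exp (-(s * v)) -
      ∑ γ ∈ Γ, c γ * (Complex.exp (γ * v * Complex.I) * Complex.exp (-(s * v))) := by
    intro s v
    rw [hg₁]
    simp only
    rw [sub_mul, Finset.sum_mul]
    congr 1
    apply Finset.sum_congr rfl
    intro γ _
    ring
  have hp1 : ∀ s : ℂ, 0 < s.re → s.re < r →
      ∫ v in Set.Ioi (0:ℝ), g₁ v * Complex.exp (-(s * v)) = G s - ∑ γ ∈ Γ, c γ / (s - γ * Complex.I) := by
    intro s hs hs'
    simp only [hexpand]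
    rw [integral_sub (hgi_p s hs), hp s hs hs', integral_finsetSum]
    · congr 1
      apply Finset.sum_congr rfl
      intro γ _
      rw [integral_const_mul, (hexp_p γ s hs).2]
      ring
    · intro γ _
      exact (hexp_p γ s hs).1.const_mul _
    · apply integrable_finsetSum
      intro γ _
      exact (hexp_p γ s hs).1.const_mul _
  have hm1 : ∀ s : ℂ, -r < s.re → s.re < 0 →
      ∫ v in Set.Iic (0:ℝ), g₁ v * Complex.exp (-(s * v)) =
        -(G s - ∑ γ ∈ Γ, c γ / (s - γ * Complex.I)) := by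
    intro s hs hs'
    simp only [hexpand]
    rw [integral_sub (hgi_m s hs'), hm s hs hs', integral_finsetSum]
    · have : ∑ γ ∈ Γ, ∫ v in Set.Iic (0:ℝ), c γ * (Complex.exp (γ * v * Complex.I) * Complex.exp (-(s * v)))
          = -∑ γ ∈ Γ, c γ / (s - γ * Complex.I) := by
        rw [← Finset.sum_neg_distrib]
        apply Finset.sum_congr rfl
        intro γ _
        rw [integral_const_mul, (hexp_m γ s hs').2]
        ring
      rw [this]
      ring
    · intro γ _
      exact (hexp_m γ s hs').1.const_mul _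
    · apply integrable_finsetSum
      intro γ _
      exact (hexp_m γ s hs').1.const_mul _
  -- apply Carleman to the translated kernel
  have hKu : AEStronglyMeasurable (fun v => (KJ L (v - u) : ℂ)) volume :=
    ((KJ_int hL).comp_sub_right u).ofReal.aestronglyMeasurable
  have hcar := carleman_p hg₁c (by positivity) hg₁b hr hp1 hm1 hΓ
    (κ := fun t => κ₀ t * Complex.exp (t * u * Complex.I))
    (K := fun v => (KJ L (v - u) : ℂ)) ?_ ?_ ?_ hKu ?_
  · -- conclude
    have hshift : ∀ F : ℝ → ℂ, ∫ v, F v * (KJ L (v - u) : ℂ) = ∫ v, F (v + u) * (KJ L v : ℂ) := by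
      intro F
      rw [← integral_add_right_eq_self (fun v => F v * (KJ L (v - u) : ℂ)) u]
      congr 1
      ext v
      rw [add_sub_cancel_right]
    rw [hshift] at hcar
    have hpt : ∀ v : ℝ, g₁ (v + u) * (KJ L v : ℂ) = g (v + u) * (KJ L v : ℂ) -
        ∑ γ ∈ Γ, (c γ * Complex.exp (γ * u * Complex.I)) * (Complex.exp (γ * v * Complex.I) * (KJ L v : ℂ)) := by
      intro v
      rw [hg₁]
      simp only
      rw [sub_mul, Finset.sum_mul]
      congr 1
      apply Finset.sum_congr rfl
      intro γ _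
      have : Complex.exp (γ * ((v + u : ℝ) : ℂ) * Complex.I) =
          Complex.exp (γ * u * Complex.I) * Complex.exp (γ * v * Complex.I) := by
        rw [← Complex.exp_add]
        congr 1
        push_cast
        ring
      rw [this]
      ring
    have hEK : ∀ γ : ℝ, Integrable (fun v : ℝ => Complex.exp (γ * v * Complex.I) * (KJ L v : ℂ)) := by
      intro γ
      apply Integrable.bdd_mul (c := 1) (KJ_int hL).ofReal
      · apply Continuous.aestronglyMeasurable
        fun_prop
      · exact Filter.Eventually.of_forall (fun v => (hn1 γ v).le)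
    simp only [hpt] at hcar
    rw [integral_sub (gKJ_int hg hC0 hC hL u), integral_finsetSum] at hcar
    · rw [sub_eq_zero] at hcar
      rw [hcar]
      apply Finset.sum_congr rfl
      intro γ _
      rw [integral_const_mul]
      ring
    · intro γ _
      exact (hEK γ).const_mul _
    · apply integrable_finsetSum
      intro γ _
      exact (hEK γ).const_mul _
  · -- integrability of κ
    apply Integrable.mul_bdd (c := 1)
    · exact k1
    · apply Continuous.aestronglyMeasurable
      fun_prop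
    · exact Filter.Eventually.of_forall (fun t => (hn1 t u).le)
  · -- support
    intro t ht
    simp only [k2 t ht]
    simp
  · -- representation
    intro v
    rw [k3 (v - u)]
    refine integral_congr_ae (Eventually.of_forall fun t => ?_)
    beta_reduce
    have e1 : Complex.exp (-((t : ℂ) * ((v - u : ℝ) : ℂ) * Complex.I)) =
        Complex.exp (t * u * Complex.I) * Complex.exp (-(t * v * Complex.I)) := by
      rw [← Complex.exp_add]
      congr 1
      push_cast
      ring
    rw [e1]
    ring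
  · -- weighted integrability of the kernel
    have h1 := ((pw_KJ_int hL).comp_sub_right u).const_mul (pw u)
    refine Integrable.mono' h1 ?_ ?_
    · exact pw_cont.aestronglyMeasurable.mul hKu.norm
    · apply Filter.Eventually.of_forall
      intro v
      rw [Complex.norm_real, Real.norm_of_nonneg (mul_nonneg (pw_nonneg v) (norm_nonneg _)),
        Real.norm_of_nonneg (KJ_nonneg hL _), ← mul_assoc]
      apply mul_le_mul_of_nonneg_right _ (KJ_nonneg hL _)
      have := pw_add u (v - u)
      rwa [show u + (v - u) = v by ring] at this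

end Pool.Agent.Helper47.QL
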