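import Pool.Agent.Helper95.QL.RL
import Pool.Agent.Helper47.QL.CT
import Pool.Agent.Helper56.QL.Cp
import Pool.Agent.Helper99.MS.Spec

/-! # Project QL, block TR: the spectrum of `Hh` -/

set_option autoImplicit false

namespace Pool.Agent.Helper47.QL

open MeasureTheory Set Filter Topology
open Pool.Agent.Helper18.ES (lam bb)
open Pool.Agent.Helper13.Mob (Z1 Z1_diff Z1_eq zeta_ana simple_pole)
open Pool.Agent.Helper99.MS (ff GB al ZL mem_ZL khat khat_ana cv cv_comm cv_cont cv_tr alC alC_KD al_tr Jk Jk_int Jk_cont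
  ff_meas ff_neg Lp KD ell one_le_ell)
open Pool.Agent.Helper56.QL (g1l_abs)
open Pool.Agent.Helper95.QL

variable {B : ℝ}

theorem cv_all (m : ℕ) (v : ℝ) : cv (ff lam) (alC m) v = (g1l m v : ℂ) := by
  rw [cv_comm]
  unfold g1l alC
  rw [← integral_complex_ofReal]
  congr 1
  ext t
  push_cast
  rfl

theorem g1l_cont (h : GB (ff lam) B) {m : ℕ} (hm : 4 ≤ m) : Continuous (fun v => (g1l m v : ℂ)) :=
  (cv_cont (ff_meas lam) h (alC_KD hm)).congr fun v => cv_all m v

/-- the constant -/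
noncomputable def kp (m : ℕ) : ℂ := ((bb * ∫ t : ℝ, al m t : ℝ) : ℂ)

noncomputable def J2 (m : ℕ) (s : ℂ) : ℂ := ∫ v in Ioi (0:ℝ), (Rm m v : ℂ) * Complex.exp (-(s * v))

noncomputable def GQ (m : ℕ) (s : ℂ) : ℂ := Tq m (s + 1/2) - Jk (ff lam) (alC m) s - J2 m s - kp m / s

theorem Hh_eq (m : ℕ) (v : ℝ) : Hh m v = (g1l m v : ℂ) - (Rm m v : ℂ) - kp m := by
  unfold Hh kp
  push_cast
  rfl

theorem J2_bound {C : ℝ} {m : ℕ} (hC : ∀ v : ℝ, 0 ≤ v → |Rm m v| ≤ C * m * Real.exp (-(v / 4))) {s : ℂ} {r : ℝ}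
    (hr : r ≤ s.re) {v : ℝ} (hv : 0 ≤ v) :
    ‖(Rm m v : ℂ) * Complex.exp (-(s * v))‖ ≤ C * m * Real.exp (-(1/4 + r) * v) := by
  rw [norm_mul, Complex.norm_exp, Complex.norm_real, Real.norm_eq_abs]
  have e : (-(s * (v:ℂ))).re = -(s.re * v) := by simp
  rw [e]
  have h1 : -(s.re * v) ≤ -(r * v) := by nlinarith
  have h2 := hC v hv
  calc |Rm m v| * Real.exp (-(s.re * v)) ≤ (C * m * Real.exp (-(v / 4))) * Real.exp (-(r * v)) := by
        apply mul_le_mul h2 (Real.exp_le_exp.2 h1) (Real.exp_pos _).le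
        exact (abs_nonneg _).trans h2
    _ = _ := by
        rw [mul_assoc, ← Real.exp_add]
        congr 2
        ring

theorem Rm_cont' {m : ℕ} (hm : 8 ≤ m) : Continuous (fun v => (Rm m v : ℂ)) :=
  Complex.continuous_ofReal.comp (Rm_cont (by exact_mod_cast hm))

theorem J2_int {m : ℕ} (hm : 8 ≤ m) {s : ℂ} (hs : -(1/4) < s.re) :
    IntegrableOn (fun v : ℝ => (Rm m v : ℂ) * Complex.exp (-(s * v))) (Ioi 0) := by
  obtain ⟨C, hC1, hC⟩ := Rm_right
  have hC' := hC m (by exact_mod_cast hm)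
  refine Integrable.mono' ((integrableOn_exp_mul_Ioi (show -(1/4 + s.re) < 0 by linarith) 0).const_mul (C * m)) ?_ ?_
  · exact ((Rm_cont' hm).mul (by fun_prop)).aestronglyMeasurable
  · rw [ae_restrict_iff' measurableSet_Ioi]
    apply Filter.Eventually.of_forall
    intro v hv
    exact J2_bound hC' le_rfl (le_of_lt hv)

theorem J2_cont {m : ℕ} (hm : 8 ≤ m) {s : ℂ} (hs : -(1/4) < s.re) : ContinuousAt (J2 m) s := by
  obtain ⟨C, hC1, hC⟩ := Rm_right
  have hC' := hC m (by exact_mod_cast hm)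
  unfold J2
  set r : ℝ := (s.re - 1/4) / 2 with hr
  apply continuousAt_of_dominated (bound := fun v => C * m * Real.exp (-(1/4 + r) * v))
  · apply Filter.Eventually.of_forall
    intro s'
    exact ((Rm_cont' hm).mul (by fun_prop)).aestronglyMeasurable
  · have : ∀ᶠ s' : ℂ in 𝓝 s, r < s'.re := by
      apply ContinuousAt.eventually_lt continuousAt_const Complex.continuous_re.continuousAt
      rw [hr]; linarith
    filter_upwards [this] with s' hs'
    rw [ae_restrict_iff' measurableSet_Ioi]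
    apply Filter.Eventually.of_forall
    intro v hv
    exact J2_bound hC' hs'.le (le_of_lt hv)
  · exact (integrableOn_exp_mul_Ioi (show -(1/4 + r) < 0 by rw [hr]; linarith) 0).const_mul (C * m)
  · apply Filter.Eventually.of_forall
    intro v
    fun_prop

/-- positive side -/
theorem Hh_pos (h : GB (ff lam) B) {m : ℕ} (hm : 8 ≤ m) {s : ℂ} (hs : 0 < s.re) (hs' : s.re < 1/4) :
    ∫ v in Ioi (0:ℝ), Hh m v * Complex.exp (-(s * v)) = GQ m s := by
  have hka : KD (alC m) _ := alC_KD (by omega)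
  have hmz := ff_meas lam
  have h0 : ∀ u < 0, ff lam u = 0 := fun u hu => ff_neg hu
  have hre : (s + 1/2).re = s.re + 1/2 := by simp
  have hw1 : s + 1/2 ≠ 1 := by
    intro h
    rw [h] at hre
    simp at hre
    linarith
  have hs0 : s ≠ 0 := by
    rintro rfl
    simp at hs
  obtain ⟨i1, t1⟩ := cv_tr hmz h h0 hka hs (by linarith)
  have e1 : ∫ v in Set.Ioi (0:ℝ), cv (ff lam) (alC m) v * Complex.exp (-(s * v)) =
      Lp (fun u => (ff lam u : ℂ)) s * ((s + 1/2) * khat m (s + 1/2)) - Jk (ff lam) (alC m) s := by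
    have h4 := intervalIntegral.integral_Iic_add_Ioi (b := (0:ℝ)) (μ := volume)
      (f := fun v : ℝ => cv (ff lam) (alC m) v * Complex.exp (-(s * v))) i1.integrableOn i1.integrableOn
    rw [t1] at h4
    have h5 : ∫ t : ℝ, alC m t * Complex.exp (-(s * t)) = (s + 1/2) * khat m (s + 1/2) :=
      al_tr (by omega) (by linarith)
    rw [h5] at h4
    unfold Jk
    rw [← h4]
    ring
  have hz := rz_right h (w := s + 1/2) (by rw [hre]; linarith) hw1
  have hF := rz_eq h (w := s + 1/2) (by rw [hre]; linarith) hw1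
  rw [add_sub_cancel_right] at hF
  have e3 : Lp (fun u => (ff lam u : ℂ)) s * ((s + 1/2) * khat m (s + 1/2)) = Tq m (s + 1/2) := by
    unfold Tq
    rw [← mul_div_assoc, eq_div_iff hz]
    calc _ = khat m (s + 1/2) * ((s + 1/2) * riemannZeta (s + 1/2) * Lp (fun u => (ff lam u : ℂ)) s) := by ring
      _ = _ := by rw [hF]
  have i2 := J2_int hm (s := s) (by linarith)
  have i3 : IntegrableOn (fun v : ℝ => Complex.exp (-(s * v))) (Ioi 0) := by
    have := integrableOn_exp_mul_complex_Ioi (a := -s) (by simpa using hs) 0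
    simpa [neg_mul] using this
  have e4 : ∫ v in Ioi (0:ℝ), Complex.exp (-(s * v)) = 1 / s := by
    have := integral_exp_mul_complex_Ioi (a := -s) (by simpa using hs) 0
    simp only [neg_mul, Complex.ofReal_zero, mul_zero, Complex.exp_zero] at this
    rw [this]
    field_simp
  have e5 : ∀ v : ℝ, Hh m v * Complex.exp (-(s * v)) = cv (ff lam) (alC m) v * Complex.exp (-(s * v)) -
      (Rm m v : ℂ) * Complex.exp (-(s * v)) - kp m * Complex.exp (-(s * v)) := by
    intro v
    rw [Hh_eq, cv_all]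
    ring
  simp only [e5]
  have i12 : IntegrableOn (fun v : ℝ => cv (ff lam) (alC m) v * Complex.exp (-(s * v)) -
      (Rm m v : ℂ) * Complex.exp (-(s * v))) (Ioi 0) := i1.integrableOn.sub i2
  rw [integral_sub i12 (i3.const_mul _), integral_sub i1.integrableOn i2, integral_const_mul, e1, e3, e4]
  unfold GQ J2
  ring

/-- negative side -/
theorem Hh_neg (h : GB (ff lam) B) {m : ℕ} (hm : 8 ≤ m) {s : ℂ} (hs : -(1/4) < s.re) (hs' : s.re < 0) :
    ∫ v in Iic (0:ℝ), Hh m v * Complex.exp (-(s * v)) = -GQ m s := by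
  have hka : KD (alC m) _ := alC_KD (by omega)
  have hmz := ff_meas lam
  have h0 : ∀ u < 0, ff lam u = 0 := fun u hu => ff_neg hu
  have hs0 : s ≠ 0 := by
    rintro rfl
    simp at hs'
  have j1 := Jk_int hmz h h0 hka (s := s) (by linarith)
  obtain ⟨i2, t2⟩ := Rm_lap h hm hs hs'
  have e2 : ∫ v in Iic (0:ℝ), (Rm m v : ℂ) * Complex.exp (-(s * v)) = Tq m (s + 1/2) - J2 m s := by
    have h4 := intervalIntegral.integral_Iic_add_Ioi (b := (0:ℝ)) (μ := volume)
      (f := fun v : ℝ => (Rm m v : ℂ) * Complex.exp (-(s * v))) i2.integrableOn i2.integrableOn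
    rw [t2] at h4
    unfold J2
    rw [← h4]
    ring
  have i3 : IntegrableOn (fun v : ℝ => Complex.exp (-(s * v))) (Iic 0) := by
    have := integrableOn_exp_mul_complex_Iic (a := -s) (by simpa using hs') 0
    simpa [neg_mul] using this
  have e4 : ∫ v in Iic (0:ℝ), Complex.exp (-(s * v)) = -(1 / s) := by
    have := integral_exp_mul_complex_Iic (a := -s) (by simpa using hs') 0
    simp only [neg_mul, Complex.ofReal_zero, mul_zero, Complex.exp_zero] at this
    rw [this]
    simp [div_eq_mul_inv, inv_neg]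
  have e5 : ∀ v : ℝ, Hh m v * Complex.exp (-(s * v)) = cv (ff lam) (alC m) v * Complex.exp (-(s * v)) -
      (Rm m v : ℂ) * Complex.exp (-(s * v)) - kp m * Complex.exp (-(s * v)) := by
    intro v
    rw [Hh_eq, cv_all]
    ring
  simp only [e5]
  have i12 : IntegrableOn (fun v : ℝ => cv (ff lam) (alC m) v * Complex.exp (-(s * v)) -
      (Rm m v : ℂ) * Complex.exp (-(s * v))) (Iic 0) := j1.sub i2.integrableOn
  rw [integral_sub i12 (i3.const_mul _), integral_sub j1 i2.integrableOn, integral_const_mul, e2, e4]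
  unfold GQ Jk
  ring

/-- the bound -/
theorem Hh_pw (h : GB (ff lam) B) {m : ℕ} (hm : 8 ≤ m) : ∃ C : ℝ, 0 ≤ C ∧ ∀ v : ℝ, ‖Hh m v‖ ≤ C * pw v := by
  obtain ⟨C1, hC1, h1⟩ := Rm_left
  obtain ⟨C2, hC2, h2⟩ := Rm_right
  have hB := h.nonneg
  have hm' : (8:ℝ) ≤ m := by exact_mod_cast hm
  refine ⟨16 * B + (C1 * B * (m:ℝ) ^ 6 + C2 * m) + ‖kp m‖, by positivity, fun v => ?_⟩
  have hp := one_le_pw v
  have e1 : |g1l m v| ≤ 16 * B * pw v := (g1l_abs h hm' v).trans
    (mul_le_mul_of_nonneg_left (ell_le_pw v) (by positivity))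
  have e2 : |Rm m v| ≤ (C1 * B * (m:ℝ) ^ 6 + C2 * m) * pw v := by
    rcases le_total v 0 with hv | hv
    · have := h1 B h m hm v hv
      have h3 : 0 ≤ C2 * m * pw v := by positivity
      linarith
    · have := h2 m hm' v hv
      have h3 : C2 * m * Real.exp (-(v / 4)) ≤ C2 * m * pw v := by
        apply mul_le_mul_of_nonneg_left _ (by positivity)
        exact (Real.exp_le_one_iff.2 (by linarith)).trans hp
      have h4 : 0 ≤ C1 * B * (m:ℝ) ^ 6 * pw v := by positivity
      linarith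
  have e3 : ‖kp m‖ ≤ ‖kp m‖ * pw v := le_mul_of_one_le_right (norm_nonneg _) hp
  rw [Hh_eq]
  calc ‖(g1l m v : ℂ) - (Rm m v : ℂ) - kp m‖ ≤ ‖(g1l m v : ℂ) - (Rm m v : ℂ)‖ + ‖kp m‖ := norm_sub_le _ _
    _ ≤ (‖(g1l m v : ℂ)‖ + ‖(Rm m v : ℂ)‖) + ‖kp m‖ := by gcongr; exact norm_sub_le _ _
    _ = (|g1l m v| + |Rm m v|) + ‖kp m‖ := by
        rw [Complex.norm_real, Complex.norm_real, Real.norm_eq_abs, Real.norm_eq_abs]
    _ ≤ _ := by linarith

/-- the numerator at `1/2` -/
noncomputable def N0 (m : ℕ) (w : ℂ) : ℂ := khat m w * (Z1 (2 * w) / 2) / riemannZeta w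

theorem Tq_N0 {m : ℕ} {w : ℂ} (hw : w ≠ 1/2) : Tq m w = N0 m w / (w - 1/2) := by
  have h1 : 2 * w ≠ 1 := by
    intro h
    apply hw
    rw [← h]
    ring
  have h2 : w - 1/2 ≠ 0 := sub_ne_zero.2 hw
  have h3 : Z1 (2 * w) / 2 = (w - 1/2) * riemannZeta (2 * w) := by
    rw [Z1_eq h1]
    ring
  unfold Tq N0
  rw [h3]
  field_simp

theorem shift_tendsto (t : ℝ) : Tendsto (fun s : ℂ => s + 1/2) (𝓝[{s : ℂ | s.re ≠ 0}] (t * Complex.I))
    (𝓝[≠] ((t : ℂ) * Complex.I + 1/2)) := by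
  rw [tendsto_nhdsWithin_iff]
  constructor
  · have : Tendsto (fun s : ℂ => s + 1/2) (𝓝 (t * Complex.I)) (𝓝 (t * Complex.I + 1/2)) := by
      apply Continuous.tendsto
      fun_prop
    exact this.mono_left nhdsWithin_le_nhds
  · filter_upwards [self_mem_nhdsWithin] with s hs
    simp only [Set.mem_compl_iff, Set.mem_singleton_iff]
    intro h
    have h' : s = t * Complex.I := add_right_cancel h
    apply hs
    rw [h']
    simp

/-- the coefficients -/
noncomputable def cf (m : ℕ) (γ : ℝ) : ℂ := if γ = 0 then N0 m (1/2) - kp m else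
  khat m ((γ : ℂ) * Complex.I + 1/2) * riemannZeta (2 * ((γ : ℂ) * Complex.I + 1/2)) /
    deriv riemannZeta ((γ : ℂ) * Complex.I + 1/2)

theorem loc_spec (h : GB (ff lam) B) {m : ℕ} (hm : 8 ≤ m) {L t : ℝ} (ht : t ∈ Icc (-L) L) :
    ∃ ℓ, Tendsto (fun s => (Tq m (s + 1/2) - kp m / s) - (if t ∈ ZM L then cf m t else 0) / (s - t * Complex.I))
      (𝓝[{s : ℂ | s.re ≠ 0}] (t * Complex.I)) (𝓝 ℓ) := by
  have hm8 : (8:ℝ) ≤ m := by exact_mod_cast hm
  have hre : ((t : ℂ) * Complex.I + 1/2).re = 1/2 := by simp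
  have hkan : AnalyticAt ℂ (khat m) ((t : ℂ) * Complex.I + 1/2) := by
    apply khat_ana (by omega)
    rw [hre]
    linarith
  have hne1 : (t : ℂ) * Complex.I + 1/2 ≠ 1 := by
    intro h
    rw [h] at hre
    norm_num at hre
  by_cases ht0 : t = 0
  · subst ht0
    have hin : (0:ℝ) ∈ ZM L := Finset.mem_insert_self _ _
    rw [if_pos hin]
    unfold cf
    rw [if_pos rfl]
    simp only [Complex.ofReal_zero, zero_mul, zero_add, sub_zero] at hkan hne1 ⊢
    have hN : AnalyticAt ℂ (N0 m) (1/2) := by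
      unfold N0
      apply AnalyticAt.div
      · apply AnalyticAt.mul hkan
        apply AnalyticAt.div _ analyticAt_const two_ne_zero
        have h1 : AnalyticAt ℂ (fun w : ℂ => Z1 (2 * w)) (1/2) := by
          apply Differentiable.analyticAt
          exact Z1_diff.comp (by fun_prop)
        exact h1
      · exact zeta_ana hne1
      · exact zeta_half_ne0
    have hf : AnalyticAt ℂ (fun w : ℂ => w - 1/2) (1/2) := by fun_prop
    have hd : deriv (fun w : ℂ => w - 1/2) (1/2) = 1 := by simp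
    obtain ⟨ℓ, hℓ⟩ := simple_pole hf hN (by simp) (by rw [hd]; exact one_ne_zero)
    rw [hd] at hℓ
    have hsh := shift_tendsto 0
    simp only [Complex.ofReal_zero, zero_mul, zero_add] at hsh
    refine ⟨ℓ, (hℓ.comp hsh).congr' ?_⟩
    filter_upwards [self_mem_nhdsWithin] with s hs
    have hs0 : s ≠ 0 := by
      rintro rfl
      exact hs (by simp)
    simp only [Function.comp_apply]
    rw [Tq_N0 (w := s + 1/2) (by
      intro h
      apply hs0
      have := congrArg (fun z => z - 1/2) h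
      simpa using this)]
    rw [show s + 1/2 - 1/2 = s by ring]
    ring
  · have hsne : (t : ℂ) * Complex.I ≠ 0 := mul_ne_zero (by exact_mod_cast ht0) Complex.I_ne_zero
    have hkp : ContinuousAt (fun s : ℂ => kp m / s) (t * Complex.I) :=
      ContinuousAt.div continuousAt_const continuousAt_id hsne
    have h2 : 2 * ((t : ℂ) * Complex.I + 1/2) ≠ 1 := by
      intro h
      apply hsne
      have := congrArg (fun z => (z - 1) / 2) h
      simp only [sub_self, zero_div] at this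
      rw [← this]
      ring
    have hk2 : AnalyticAt ℂ (fun w : ℂ => khat m w * riemannZeta (2 * w)) ((t : ℂ) * Complex.I + 1/2) := by
      apply AnalyticAt.mul hkan
      have h3 : AnalyticAt ℂ (fun w : ℂ => 2 * w) ((t : ℂ) * Complex.I + 1/2) := by fun_prop
      exact AnalyticAt.fun_comp (g := riemannZeta) (zeta_ana h2) h3
    by_cases hz : riemannZeta ((t : ℂ) * Complex.I + 1/2) = 0
    · have hin : t ∈ ZM L := Finset.mem_insert_of_mem (mem_ZL.2 ⟨ht, hz⟩)
      rw [if_pos hin]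
      unfold cf
      rw [if_neg ht0]
      obtain ⟨ℓ, hℓ⟩ := simple_pole (zeta_ana hne1) hk2 hz (rz_simple h hre hz)
      have h4 := (hℓ.comp (shift_tendsto t)).sub (hkp.tendsto.mono_left (nhdsWithin_le_nhds (s := {s : ℂ | s.re ≠ 0})))
      refine ⟨_, h4.congr ?_⟩
      intro s
      simp only [Function.comp_apply]
      rw [show s + 1/2 - ((t : ℂ) * Complex.I + 1/2) = s - t * Complex.I by ring]
      unfold Tq
      ring
    · have hnot : t ∉ ZM L := by
        intro h
        rcases Finset.mem_insert.1 h with h | h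
        · exact ht0 h
        · exact hz (mem_ZL.1 h).2
      rw [if_neg hnot]
      have h5 : ContinuousAt (fun s : ℂ => Tq m (s + 1/2)) (t * Complex.I) := by
        apply ContinuousAt.comp (g := Tq m) (f := fun s : ℂ => s + 1/2)
        · have h6 : ContinuousAt (fun w : ℂ => khat m w * riemannZeta (2 * w) / riemannZeta w)
              ((t : ℂ) * Complex.I + 1/2) := hk2.continuousAt.div (zeta_ana hne1).continuousAt hz
          refine h6.congr (Filter.Eventually.of_forall fun w => ?_)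
          unfold Tq
          simp only
          ring
        · fun_prop
      have h7 : ContinuousAt (fun s : ℂ => (Tq m (s + 1/2) - kp m / s) - 0 / (s - t * Complex.I)) (t * Complex.I) := by
        simp only [zero_div, sub_zero]
        exact h5.sub hkp
      exact ⟨_, h7.tendsto.mono_left nhdsWithin_le_nhds⟩

theorem GQ_spec (h : GB (ff lam) B) {m : ℕ} (hm : 8 ≤ m) (L : ℝ) : ∀ t ∈ Icc (-L) L,
    ∃ ℓ, Tendsto (fun s => GQ m s - ∑ γ ∈ ZM L, cf m γ / (s - γ * Complex.I))
      (𝓝[{s : ℂ | s.re ≠ 0}] (t * Complex.I)) (𝓝 ℓ) := by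
  intro t ht
  have hmz := ff_meas lam
  have h0 : ∀ u < 0, ff lam u = 0 := fun u hu => ff_neg hu
  have hka : KD (alC m) _ := alC_KD (by omega)
  have hJ : ContinuousAt (fun s => Jk (ff lam) (alC m) s + J2 m s) (t * Complex.I) := by
    apply ContinuousAt.add
    · apply Jk_cont hmz h h0 hka
      simp
    · apply J2_cont hm
      simp
  have hother : ∀ γ : ℝ, γ ≠ t → ContinuousAt (fun s : ℂ => cf m γ / (s - γ * Complex.I)) (t * Complex.I) := by
    intro γ hγ
    apply ContinuousAt.div continuousAt_const (by fun_prop)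
    rw [← sub_mul]
    apply mul_ne_zero _ Complex.I_ne_zero
    rw [sub_ne_zero]
    exact_mod_cast hγ.symm
  have hrest : Tendsto (fun s : ℂ => ∑ γ ∈ (ZM L).erase t, cf m γ / (s - γ * Complex.I))
      (𝓝[{s : ℂ | s.re ≠ 0}] (t * Complex.I))
      (𝓝 (∑ γ ∈ (ZM L).erase t, cf m γ / (t * Complex.I - γ * Complex.I))) := by
    apply tendsto_finsetSum
    intro γ hγ
    exact (hother γ (Finset.ne_of_mem_erase hγ)).tendsto.mono_left nhdsWithin_le_nhds
  obtain ⟨ℓ, hℓ⟩ := loc_spec h hm ht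
  have hJt := hJ.tendsto.mono_left (nhdsWithin_le_nhds (s := {s : ℂ | s.re ≠ 0}))
  refine ⟨_, ((hℓ.sub hJt).sub hrest).congr ?_⟩
  intro s
  have hsum : ∑ γ ∈ ZM L, cf m γ / (s - γ * Complex.I) = (if t ∈ ZM L then cf m t else 0) / (s - t * Complex.I) +
      ∑ γ ∈ (ZM L).erase t, cf m γ / (s - γ * Complex.I) := by
    by_cases hin : t ∈ ZM L
    · rw [if_pos hin]
      exact (Finset.add_sum_erase (ZM L) (fun γ => cf m γ / (s - γ * Complex.I)) hin).symm
    · rw [if_neg hin, Finset.erase_eq_of_notMem hin]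
      simp
  rw [hsum]
  unfold GQ
  ring

theorem Hh_contm (h : GB (ff lam) B) {m : ℕ} (hm : 8 ≤ m) : Continuous (Hh m) := by
  have e : (fun v => (g1l m v : ℂ) - (Rm m v : ℂ) - kp m) = Hh m := by
    ext v
    rw [Hh_eq]
  rw [← e]
  exact ((g1l_cont h (by omega)).sub (Rm_cont' hm)).sub continuous_const

theorem Hh_reprm (h : GB (ff lam) B) {m : ℕ} (hm : 8 ≤ m) {L : ℝ} (hL : 0 < L) :
    ∃ b : ℝ → ℂ, ∀ u, ∫ v, Hh m (v + u) * (KJ L v : ℂ) =
      ∑ γ ∈ ZM L, b γ * Complex.exp (γ * u * Complex.I) := by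
  obtain ⟨C, hC0, hC⟩ := Hh_pw h hm
  exact trig_repr_p (Hh_contm h hm) hC0 hC (r := 1/4) (by norm_num) (fun s hs hs' => Hh_pos h hm hs hs')
    (fun s hs hs' => Hh_neg h hm hs hs') hL (ZM L) (cf m) (GQ_spec h hm L)

theorem Hh_cont (h : GB (ff lam) B) {k : ℕ} (hk : 2 ≤ k) : Continuous (Hh (4 * k : ℕ)) :=
  Hh_contm h (by omega)

theorem Hh_repr (h : GB (ff lam) B) {k : ℕ} (hk : 2 ≤ k) {L : ℝ} (hL : 0 < L) :
    ∃ b : ℝ → ℂ, ∀ u, ∫ v, Hh (4 * k : ℕ) (v + u) * (KJ L v : ℂ) =
      ∑ γ ∈ ZM L, b γ * Complex.exp (γ * u * Complex.I) :=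
  Hh_reprm h (by omega) hL

end Pool.Agent.Helper47.QL
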