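import Pool.Agent.Helper95.QL.Defs

/-! # Project QL, block K8: the eighth power of the Fejer kernel -/

set_option autoImplicit false

namespace Pool.Agent.Helper47.QL

open MeasureTheory Set Filter Topology
open Pool.Agent.Helper13.Mob (fej fej_le fej_int fej_eq fej_meas fej_nonneg tri tri_int tri_eq_zero)
open Pool.Agent.Helper99.MS (ell ell_le_linear one_le_ell ell_exp_int ell_nonneg KL KL_tail KL_int KL_nonneg)
open Pool.Agent.Helper95.QL

/-! ## The weight -/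

theorem pw_cont : Continuous pw := by
  unfold pw
  fun_prop

theorem one_le_pw (v : ℝ) : 1 ≤ pw v := one_le_pow₀ (by linarith [abs_nonneg v])

theorem pw_pos (v : ℝ) : 0 < pw v := lt_of_lt_of_le one_pos (one_le_pw v)

theorem pw_add (u v : ℝ) : pw (u + v) ≤ pw u * pw v := by
  unfold pw
  rw [← mul_pow]
  have h1 := abs_add_le u v
  have h2 := abs_nonneg u
  have h3 := abs_nonneg v
  exact pow_le_pow_left₀ (by positivity) (by nlinarith [mul_nonneg h2 h3]) 8

theorem ell_le_pw (v : ℝ) : ell v ≤ pw v :=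
  (ell_le_linear v).trans (le_self_pow₀ (by linarith [abs_nonneg v]) (by norm_num))

theorem pw_exp_int {c : ℝ} (hc : 0 < c) : Integrable (fun v => pw v * Real.exp (-c * |v|)) := by
  have hi := ell_exp_int (c := c / 2) (by linarith)
  set M : ℝ := (Nat.factorial 8 : ℝ) * (2 / c) ^ 8 * Real.exp (c / 2) with hM
  refine Integrable.mono' (hi.const_mul M) ?_ ?_
  · exact (pw_cont.mul (by fun_prop)).aestronglyMeasurable
  · refine Eventually.of_forall fun v => ?_
    have hv := abs_nonneg v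
    rw [Real.norm_of_nonneg (mul_nonneg (pw_pos v).le (Real.exp_pos _).le)]
    have h1 := Real.pow_div_factorial_le_exp (c / 2 * (1 + |v|)) (by positivity) 8
    rw [div_le_iff₀ (by positivity)] at h1
    have h2 : pw v = (2 / c) ^ 8 * (c / 2 * (1 + |v|)) ^ 8 := by
      unfold pw
      rw [← mul_pow]
      congr 1
      field_simp
    have h3 : pw v ≤ (2 / c) ^ 8 * (Real.exp (c / 2 * (1 + |v|)) * (Nat.factorial 8 : ℝ)) := by
      rw [h2]
      exact mul_le_mul_of_nonneg_left h1 (by positivity)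
    have h4 : Real.exp (c / 2 * (1 + |v|)) * Real.exp (-c * |v|) = Real.exp (c / 2) * Real.exp (-(c / 2) * |v|) := by
      rw [← Real.exp_add, ← Real.exp_add]
      ring_nf
    have h5 := one_le_ell v
    have h6 := (Real.exp_pos (-(c / 2) * |v|)).le
    calc pw v * Real.exp (-c * |v|)
        ≤ ((2 / c) ^ 8 * (Real.exp (c / 2 * (1 + |v|)) * (Nat.factorial 8 : ℝ))) * Real.exp (-c * |v|) :=
          mul_le_mul_of_nonneg_right h3 (Real.exp_pos _).le
      _ = (2 / c) ^ 8 * (Nat.factorial 8 : ℝ) * (Real.exp (c / 2 * (1 + |v|)) * Real.exp (-c * |v|)) := by ring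
      _ = M * (1 * Real.exp (-(c / 2) * |v|)) := by rw [h4, hM]; ring
      _ ≤ M * (ell v * Real.exp (-(c / 2) * |v|)) := by
          refine mul_le_mul_of_nonneg_left (mul_le_mul_of_nonneg_right h5 h6) ?_
          rw [hM]; positivity

/-! ## The kernel -/

theorem fej_le_one (v : ℝ) : fej v ≤ 1 := by
  unfold fej
  split_ifs with h
  · exact le_rfl
  · have h1 := Real.one_sub_sq_div_two_le_cos (x := v)
    rw [div_le_one (by positivity)]
    linarith

theorem fej8_le (v : ℝ) : fej v ^ 8 ≤ fej v := by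
  have h0 := fej_nonneg v
  calc fej v ^ 8 = fej v * fej v ^ 7 := by ring
    _ ≤ fej v * 1 := mul_le_mul_of_nonneg_left (pow_le_one₀ h0 (fej_le_one v)) h0
    _ = fej v := mul_one _

theorem fej8_int : Integrable (fun v => fej v ^ 8) := by
  refine Integrable.mono' fej_int (fej_meas.pow_const 8).aestronglyMeasurable (Eventually.of_forall fun v => ?_)
  rw [Real.norm_of_nonneg (pow_nonneg (fej_nonneg v) 8)]
  exact fej8_le v

theorem c8_pos : 0 < c8 := by
  unfold c8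
  rw [integral_pos_iff_support_of_nonneg (fun v => pow_nonneg (fej_nonneg v) 8) fej8_int]
  have h : Ioo (0:ℝ) Real.pi ⊆ Function.support fun v => fej v ^ 8 := by
    intro v hv
    rw [Function.mem_support]
    apply pow_ne_zero
    unfold fej
    rw [if_neg hv.1.ne']
    have h1 : Real.cos v < 1 := by
      have := Real.cos_lt_cos_of_nonneg_of_le_pi (x := 0) (y := v) le_rfl hv.2.le hv.1
      rwa [Real.cos_zero] at this
    have h2 : 0 < v ^ 2 := by have := hv.1; positivity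
    have h3 : 0 < 2 * (1 - Real.cos v) / v ^ 2 := div_pos (by linarith) h2
    exact h3.ne'
  refine lt_of_lt_of_le ?_ (measure_mono h)
  rw [Real.volume_Ioo]
  simp [Real.pi_pos]

theorem KJ_nonneg {L : ℝ} (hL : 0 < L) (v : ℝ) : 0 ≤ KJ L v := by
  have h1 := c8_pos
  have h2 := fej_nonneg (L / 8 * v)
  unfold KJ
  have := Real.pi_pos
  positivity

theorem KJ_meas {L : ℝ} : AEStronglyMeasurable (KJ L) volume := by
  unfold KJ
  apply AEStronglyMeasurable.const_mul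
  exact ((fej_meas.comp (measurable_const_mul (L / 8))).pow_const 8).aestronglyMeasurable

theorem KJ_int {L : ℝ} (hL : 0 < L) : Integrable (KJ L) := by
  have h : L / 8 ≠ 0 := by positivity
  exact (fej8_int.comp_mul_left' h).const_mul (2 * Real.pi / c8 * (L / 8))

theorem KJ_tot {L : ℝ} (hL : 0 < L) : ∫ v, KJ L v = 2 * Real.pi := by
  have h8 := c8_pos
  unfold KJ
  rw [integral_const_mul, Measure.integral_comp_mul_left (fun v => fej v ^ 8) (L / 8), abs_of_pos (by positivity),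
    smul_eq_mul]
  change 2 * Real.pi / c8 * (L / 8) * ((L / 8)⁻¹ * c8) = 2 * Real.pi
  field_simp

/-- comparison with the Fejer kernel -/
theorem KJ_le_KL {L : ℝ} (hL : 0 < L) (v : ℝ) : KJ L v ≤ 2 * Real.pi / c8 * KL (L / 8) v := by
  have h8 := c8_pos
  have hpi := Real.pi_pos
  unfold KJ KL
  rw [mul_assoc]
  refine mul_le_mul_of_nonneg_left ?_ (by positivity)
  exact mul_le_mul_of_nonneg_left (fej8_le _) (by positivity)

/-- pointwise bound with the weight, all `v` -/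
theorem pw_KJ_le {L : ℝ} (hL : 0 < L) : ∃ M : ℝ, 0 ≤ M ∧ ∀ v : ℝ, pw v * KJ L v ≤ M * (1 + v ^ 2)⁻¹ := by
  have h8 := c8_pos
  have hpi := Real.pi_pos
  set μ : ℝ := min 1 ((L / 8) ^ 2) with hμ
  have hμ0 : 0 < μ := lt_min one_pos (by positivity)
  set A : ℝ := 2 * Real.pi / c8 * (L / 8) with hA
  have hA0 : 0 ≤ A := by positivity
  refine ⟨A * (2 ^ 4 * (8 / μ) ^ 8), by positivity, fun v => ?_⟩
  have hv2 : 0 ≤ v ^ 2 := sq_nonneg v
  have h1 : pw v ≤ 2 ^ 4 * (1 + v ^ 2) ^ 4 := by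
    unfold pw
    have h2 : (1 + |v|) ^ 2 ≤ 2 * (1 + v ^ 2) := by
      have := sq_abs v
      nlinarith [sq_nonneg (1 - |v|)]
    calc (1 + |v|) ^ 8 = ((1 + |v|) ^ 2) ^ 4 := by ring
      _ ≤ (2 * (1 + v ^ 2)) ^ 4 := pow_le_pow_left₀ (by positivity) h2 4
      _ = _ := by ring
  have h3 : fej (L / 8 * v) ≤ 8 / μ * (1 + v ^ 2)⁻¹ := by
    refine (fej_le _).trans ?_
    have a1 : μ ≤ 1 := min_le_left _ _
    have a2 : μ ≤ (L / 8) ^ 2 := min_le_right _ _
    have a3 : μ * (1 + v ^ 2) ≤ 1 + (L / 8 * v) ^ 2 := by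
      rw [mul_pow]
      nlinarith [mul_le_mul_of_nonneg_right a2 hv2]
    have a4 : (1 + (L / 8 * v) ^ 2)⁻¹ ≤ (μ * (1 + v ^ 2))⁻¹ := inv_anti₀ (by positivity) a3
    calc 8 * (1 + (L / 8 * v) ^ 2)⁻¹ ≤ 8 * (μ * (1 + v ^ 2))⁻¹ := mul_le_mul_of_nonneg_left a4 (by norm_num)
      _ = 8 / μ * (1 + v ^ 2)⁻¹ := by rw [mul_inv]; ring
  have h4 : fej (L / 8 * v) ^ 8 ≤ (8 / μ) ^ 8 * ((1 + v ^ 2)⁻¹) ^ 8 := by
    rw [← mul_pow]
    exact pow_le_pow_left₀ (fej_nonneg _) h3 8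
  have h5 : (1 + v ^ 2) ^ 4 * ((1 + v ^ 2)⁻¹) ^ 8 ≤ (1 + v ^ 2)⁻¹ := by
    have e1 : (1 + v ^ 2) ^ 4 * ((1 + v ^ 2)⁻¹) ^ 8 = ((1 + v ^ 2)⁻¹) ^ 4 := by
      have : (1 + v ^ 2) ≠ 0 := by positivity
      field_simp
    rw [e1]
    have e2 : (1 + v ^ 2)⁻¹ ≤ 1 := inv_le_one_of_one_le₀ (by linarith)
    have e3 : 0 ≤ (1 + v ^ 2)⁻¹ := by positivity
    calc ((1 + v ^ 2)⁻¹) ^ 4 = (1 + v ^ 2)⁻¹ * ((1 + v ^ 2)⁻¹) ^ 3 := by ring
      _ ≤ (1 + v ^ 2)⁻¹ * 1 := mul_le_mul_of_nonneg_left (pow_le_one₀ e3 e2) e3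
      _ = _ := mul_one _
  have h6 : KJ L v = A * fej (L / 8 * v) ^ 8 := rfl
  rw [h6]
  calc pw v * (A * fej (L / 8 * v) ^ 8)
      ≤ (2 ^ 4 * (1 + v ^ 2) ^ 4) * (A * ((8 / μ) ^ 8 * ((1 + v ^ 2)⁻¹) ^ 8)) := by
        refine mul_le_mul h1 (mul_le_mul_of_nonneg_left h4 hA0) ?_ (by positivity)
        have := pow_nonneg (fej_nonneg (L / 8 * v)) 8
        positivity
    _ = A * (2 ^ 4 * (8 / μ) ^ 8) * ((1 + v ^ 2) ^ 4 * ((1 + v ^ 2)⁻¹) ^ 8) := by ring
    _ ≤ A * (2 ^ 4 * (8 / μ) ^ 8) * (1 + v ^ 2)⁻¹ := mul_le_mul_of_nonneg_left h5 (by positivity)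

theorem pw_KJ_int {L : ℝ} (hL : 0 < L) : Integrable (fun v => pw v * KJ L v) := by
  obtain ⟨M, hM, h⟩ := pw_KJ_le hL
  refine Integrable.mono' (integrable_inv_one_add_sq.const_mul M) ?_ (Eventually.of_forall fun v => ?_)
  · exact pw_cont.aestronglyMeasurable.mul KJ_meas
  · rw [Real.norm_of_nonneg (mul_nonneg (pw_pos v).le (KJ_nonneg hL v))]
    exact h v

/-! ## The spectral form -/

/-- `f` is the Fourier transform of an integrable function which vanishes outside `[-A, A]` -/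
def Sp (A : ℝ) (f : ℝ → ℂ) : Prop := ∃ κ : ℝ → ℂ, Integrable κ ∧ (∀ t, t ∉ Icc (-A) A → κ t = 0) ∧
    ∀ v : ℝ, f v = ∫ t : ℝ, κ t * Complex.exp (-(t * v * Complex.I))

theorem exp_norm (t v : ℝ) : ‖Complex.exp (-(t * v * Complex.I))‖ = 1 := by
  rw [show (-((t : ℂ) * v * Complex.I)) = ((-(t * v) : ℝ) : ℂ) * Complex.I by push_cast; ring]
  exact Complex.norm_exp_ofReal_mul_I _

theorem mul_exp_int {κ : ℝ → ℂ} (h : Integrable κ) (v : ℝ) :
    Integrable (fun t : ℝ => κ t * Complex.exp (-(t * v * Complex.I))) := by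
  refine Integrable.mono h ?_ (Eventually.of_forall fun t => ?_)
  · exact h.aestronglyMeasurable.mul (by fun_prop : Continuous fun t : ℝ => Complex.exp (-((t : ℂ) * v * Complex.I))).aestronglyMeasurable
  · rw [norm_mul, exp_norm, mul_one]

theorem Sp_mul {A B : ℝ} {f g : ℝ → ℂ} (hf : Sp A f) (hg : Sp B g) : Sp (A + B) (fun v => f v * g v) := by
  obtain ⟨κ, h1, h2, h3⟩ := hf
  obtain ⟨μ, k1, k2, k3⟩ := hg
  refine ⟨convolution κ μ (ContinuousLinearMap.mul ℂ ℂ) volume, ?_, ?_, ?_⟩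
  · exact h1.integrable_convolution (ContinuousLinearMap.mul ℂ ℂ) k1
  · intro x hx
    unfold convolution
    refine integral_eq_zero_of_ae (Eventually.of_forall fun t => ?_)
    simp only [ContinuousLinearMap.mul_apply', Pi.zero_apply]
    by_cases ht : t ∈ Icc (-A) A
    · rw [k2 (x - t) (by
        intro hxt
        apply hx
        exact ⟨by linarith [hxt.1, ht.1], by linarith [hxt.2, ht.2]⟩), mul_zero]
    · rw [h2 t ht, zero_mul]
  · intro v
    have e1 := integral_convolution (L := ContinuousLinearMap.mul ℂ ℂ) (μ := (volume : Measure ℝ))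
      (ν := (volume : Measure ℝ)) (mul_exp_int h1 v) (mul_exp_int k1 v)
    rw [ContinuousLinearMap.mul_apply', ← h3, ← k3] at e1
    show f v * g v = _
    rw [← e1]
    refine integral_congr_ae (Eventually.of_forall fun x => ?_)
    unfold convolution
    simp only [ContinuousLinearMap.mul_apply']
    rw [← integral_mul_const]
    refine integral_congr_ae (Eventually.of_forall fun t => ?_)
    beta_reduce
    have e2 : Complex.exp (-((x : ℂ) * v * Complex.I)) =
        Complex.exp (-((t : ℂ) * v * Complex.I)) * Complex.exp (-(((x - t : ℝ) : ℂ) * v * Complex.I)) := by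
      rw [← Complex.exp_add]
      congr 1
      push_cast
      ring
    rw [e2]
    ring

theorem Sp_fej : Sp 1 (fun v => (fej v : ℂ)) := by
  refine ⟨fun t => (tri t : ℂ), tri_int.ofReal, fun t ht => ?_, fun v => fej_eq v⟩
  show (tri t : ℂ) = 0
  rw [tri_eq_zero, Complex.ofReal_zero]
  by_contra h
  push Not at h
  exact ht ⟨(abs_lt.1 h).1.le, (abs_lt.1 h).2.le⟩

theorem Sp_fej8 : Sp 8 (fun v => ((fej v ^ 8 : ℝ) : ℂ)) := by
  have h2 := Sp_mul Sp_fej Sp_fej
  have h4 := Sp_mul h2 h2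
  have h8 := Sp_mul h4 h4
  have e : (fun v : ℝ => ((fej v ^ 8 : ℝ) : ℂ)) =
      fun v => (((fej v : ℂ) * fej v) * ((fej v : ℂ) * fej v)) * (((fej v : ℂ) * fej v) * ((fej v : ℂ) * fej v)) := by
    funext v
    push_cast
    ring
  rw [e]
  have e2 : (8 : ℝ) = 1 + 1 + (1 + 1) + (1 + 1 + (1 + 1)) := by norm_num
  rw [e2]
  exact h8

/-- spectral form: the eighth power of a kernel with spectrum in `[-L/8, L/8]` -/
theorem KJ_sp {L : ℝ} (hL : 0 < L) : ∃ κ : ℝ → ℂ, Integrable κ ∧ (∀ t, t ∉ Icc (-L) L → κ t = 0) ∧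
    ∀ v : ℝ, (KJ L v : ℂ) = ∫ t : ℝ, κ t * Complex.exp (-(t * v * Complex.I)) := by
  obtain ⟨κ, h1, h2, h3⟩ := Sp_fej8
  have h8 : (0:ℝ) < 8 / L := by positivity
  set A : ℝ := 2 * Real.pi / c8 with hA
  refine ⟨fun t => (A : ℂ) * κ (8 / L * t), (h1.comp_mul_left' h8.ne').const_mul _, fun t ht => ?_, fun v => ?_⟩
  · have : κ (8 / L * t) = 0 := by
      apply h2
      intro h
      apply ht
      have e1 := h.1
      have e2 := h.2
      rw [div_mul_eq_mul_div] at e1 e2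
      rw [le_div_iff₀ hL] at e1
      rw [div_le_iff₀ hL] at e2
      constructor <;> linarith
    simp only
    rw [this, mul_zero]
  · have e1 : (KJ L v : ℂ) = (A : ℂ) * ((L / 8 : ℝ) : ℂ) * ((fej (L / 8 * v) ^ 8 : ℝ) : ℂ) := by
      unfold KJ
      rw [hA]
      push_cast
      ring
    have h3' := h3 (L / 8 * v)
    beta_reduce at h3'
    rw [e1, h3']
    have e2 := Measure.integral_comp_mul_left
      (fun t : ℝ => κ t * Complex.exp (-((t : ℂ) * ((L / 8 * v : ℝ) : ℂ) * Complex.I))) (8 / L)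
    rw [abs_of_pos (by positivity)] at e2
    have e3 : ∫ t : ℝ, (A : ℂ) * κ (8 / L * t) * Complex.exp (-((t : ℂ) * v * Complex.I)) =
        (A : ℂ) * ∫ t : ℝ, κ (8 / L * t) * Complex.exp (-(((8 / L * t : ℝ) : ℂ) * ((L / 8 * v : ℝ) : ℂ) * Complex.I)) := by
      rw [← integral_const_mul]
      refine integral_congr_ae (Eventually.of_forall fun t => ?_)
      beta_reduce
      rw [mul_assoc]
      congr 3
      have hL' : (L : ℂ) ≠ 0 := by exact_mod_cast hL.ne'
      push_cast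
      field_simp
    rw [e3, e2]
    have e4 : ((8 / L)⁻¹ : ℝ) = L / 8 := by rw [inv_div]
    rw [e4, mul_assoc, Complex.real_smul]

/-! ## The bounds -/

theorem KJ_bd : ∃ C : ℝ, 1 ≤ C ∧ ∀ L : ℝ, 1 ≤ L →
    (∀ θ : ℝ, 0 < θ → ∫ v in (Icc (-θ) θ)ᶜ, KJ L v ≤ C / (L * θ)) ∧
    (∫ v in (Icc (-(1 / 8 : ℝ)) (1 / 8))ᶜ, pw v * KJ L v ≤ C / L ^ 15) ∧
    (∫ v, pw v * KJ L v ≤ C) := by
  have h8 := c8_pos
  have hpi := Real.pi_pos
  set A : ℝ := 2 * Real.pi / c8 with hA
  have hA0 : 0 ≤ A := by positivity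
  set C₁ : ℝ := A * 128 with hC₁
  set C₂ : ℝ := A / 8 * (9 * 512) ^ 8 * (8 ^ 6 * 65) * Real.pi with hC₂
  set C₃ : ℝ := (9 / 8) ^ 8 * (2 * Real.pi) with hC₃
  have p1 : 0 ≤ C₁ := by positivity
  have p2 : 0 ≤ C₂ := by positivity
  have p3 : 0 ≤ C₃ := by positivity
  refine ⟨C₁ + C₂ + C₃ + 1, by linarith, fun L hL => ?_⟩
  have hL0 : 0 < L := by linarith
  -- the far part with the weight
  have hfar : ∫ v in (Icc (-(1 / 8 : ℝ)) (1 / 8))ᶜ, pw v * KJ L v ≤ C₂ / L ^ 15 := by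
    have hpt : ∀ v ∈ (Icc (-(1 / 8 : ℝ)) (1 / 8))ᶜ, pw v * KJ L v ≤
        (A / 8 * (9 * 512) ^ 8 * (8 ^ 6 * 65) / L ^ 15) * (1 + v ^ 2)⁻¹ := by
      intro v hv
      have hav : 1 / 8 < |v| := by
        by_contra hc
        push Not at hc
        exact hv (abs_le.1 hc)
      have hv0 : v ≠ 0 := by
        intro h
        rw [h, abs_zero] at hav
        norm_num at hav
      have hv2 : 0 < v ^ 2 := by positivity
      have hv64 : 1 / 64 < v ^ 2 := by
        rw [← sq_abs]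
        nlinarith
      have h1 : pw v ≤ 9 ^ 8 * (v ^ 2) ^ 4 := by
        unfold pw
        calc (1 + |v|) ^ 8 ≤ (9 * |v|) ^ 8 := pow_le_pow_left₀ (by positivity) (by linarith) 8
          _ = 9 ^ 8 * (|v| ^ 2) ^ 4 := by ring
          _ = _ := by rw [sq_abs]
      have h2 : fej (L / 8 * v) ≤ 512 / (L ^ 2 * v ^ 2) := by
        refine (fej_le _).trans ?_
        rw [← div_eq_mul_inv, div_le_div_iff₀ (by positivity) (by positivity)]
        nlinarith [sq_nonneg (L / 8 * v)]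
      have h3 : fej (L / 8 * v) ^ 8 ≤ 512 ^ 8 / (L ^ 16 * (v ^ 2) ^ 8) := by
        refine (pow_le_pow_left₀ (fej_nonneg _) h2 8).trans (le_of_eq ?_)
        rw [div_pow]
        ring
      have h4 : ((v ^ 2) ^ 4)⁻¹ ≤ (8 ^ 6 * 65) * (1 + v ^ 2)⁻¹ := by
        rw [← div_eq_mul_inv, inv_eq_one_div, div_le_div_iff₀ (by positivity) (by positivity)]
        have e1 : 1 ≤ 8 ^ 6 * (v ^ 2) ^ 3 := by
          have e2 : (1 / 64 : ℝ) ^ 3 ≤ (v ^ 2) ^ 3 := pow_le_pow_left₀ (by norm_num) hv64.le 3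
          nlinarith
        have e3 : 1 + v ^ 2 ≤ 65 * v ^ 2 := by linarith
        calc 1 * (1 + v ^ 2) ≤ (8 ^ 6 * (v ^ 2) ^ 3) * (65 * v ^ 2) := mul_le_mul e1 e3 (by positivity) (by positivity)
          _ = _ := by ring
      have h6 : KJ L v = A * (L / 8) * fej (L / 8 * v) ^ 8 := rfl
      rw [h6]
      calc pw v * (A * (L / 8) * fej (L / 8 * v) ^ 8)
          ≤ (9 ^ 8 * (v ^ 2) ^ 4) * (A * (L / 8) * (512 ^ 8 / (L ^ 16 * (v ^ 2) ^ 8))) := by
            refine mul_le_mul h1 (mul_le_mul_of_nonneg_left h3 (by positivity)) ?_ (by positivity)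
            have := pow_nonneg (fej_nonneg (L / 8 * v)) 8
            positivity
        _ = (A / 8 * (9 * 512) ^ 8 / L ^ 15) * ((v ^ 2) ^ 4)⁻¹ := by
            field_simp
        _ ≤ (A / 8 * (9 * 512) ^ 8 / L ^ 15) * ((8 ^ 6 * 65) * (1 + v ^ 2)⁻¹) :=
            mul_le_mul_of_nonneg_left h4 (by positivity)
        _ = _ := by ring
    calc ∫ v in (Icc (-(1 / 8 : ℝ)) (1 / 8))ᶜ, pw v * KJ L v
        ≤ ∫ v in (Icc (-(1 / 8 : ℝ)) (1 / 8))ᶜ, (A / 8 * (9 * 512) ^ 8 * (8 ^ 6 * 65) / L ^ 15) * (1 + v ^ 2)⁻¹ :=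
          setIntegral_mono_on (pw_KJ_int hL0).integrableOn (integrable_inv_one_add_sq.const_mul _).integrableOn
            measurableSet_Icc.compl hpt
      _ ≤ ∫ v, (A / 8 * (9 * 512) ^ 8 * (8 ^ 6 * 65) / L ^ 15) * (1 + v ^ 2)⁻¹ :=
          setIntegral_le_integral (integrable_inv_one_add_sq.const_mul _)
            (Eventually.of_forall fun v => by
              show 0 ≤ (A / 8 * (9 * 512) ^ 8 * (8 ^ 6 * 65) / L ^ 15) * (1 + v ^ 2)⁻¹
              positivity)
      _ = C₂ / L ^ 15 := by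
          rw [integral_const_mul, integral_univ_inv_one_add_sq, hC₂]
          ring
  refine ⟨fun θ hθ => ?_, ?_, ?_⟩
  · have h1 : ∫ v in (Icc (-θ) θ)ᶜ, KJ L v ≤ ∫ v in (Icc (-θ) θ)ᶜ, A * KL (L / 8) v :=
      setIntegral_mono_on (KJ_int hL0).integrableOn ((KL_int (by positivity)).const_mul A).integrableOn
        measurableSet_Icc.compl fun v _ => KJ_le_KL hL0 v
    have h2 := KL_tail (L := L / 8) (θ := θ) (by positivity) hθ
    rw [integral_const_mul] at h1
    have h3 : A * (16 / (L / 8 * θ)) = C₁ / (L * θ) := by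
      rw [hC₁]
      field_simp
      ring
    have h4 : C₁ / (L * θ) ≤ (C₁ + C₂ + C₃ + 1) / (L * θ) :=
      div_le_div_of_nonneg_right (by linarith) (by positivity)
    calc _ ≤ A * ∫ v in (Icc (-θ) θ)ᶜ, KL (L / 8) v := h1
      _ ≤ A * (16 / (L / 8 * θ)) := mul_le_mul_of_nonneg_left h2 hA0
      _ = C₁ / (L * θ) := h3
      _ ≤ _ := h4
  · exact hfar.trans (div_le_div_of_nonneg_right (by linarith) (by positivity))
  · have hsplit : ∫ v, pw v * KJ L v = (∫ v in Icc (-(1 / 8 : ℝ)) (1 / 8), pw v * KJ L v) +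
        ∫ v in (Icc (-(1 / 8 : ℝ)) (1 / 8))ᶜ, pw v * KJ L v :=
      (integral_add_compl measurableSet_Icc (pw_KJ_int hL0)).symm
    have hnear : ∫ v in Icc (-(1 / 8 : ℝ)) (1 / 8), pw v * KJ L v ≤ C₃ := by
      calc ∫ v in Icc (-(1 / 8 : ℝ)) (1 / 8), pw v * KJ L v
          ≤ ∫ v in Icc (-(1 / 8 : ℝ)) (1 / 8), (9 / 8) ^ 8 * KJ L v := by
            refine setIntegral_mono_on (pw_KJ_int hL0).integrableOn ((KJ_int hL0).const_mul _).integrableOn
              measurableSet_Icc fun v hv => ?_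
            refine mul_le_mul_of_nonneg_right ?_ (KJ_nonneg hL0 v)
            unfold pw
            have : |v| ≤ 1 / 8 := abs_le.2 hv
            exact pow_le_pow_left₀ (by positivity) (by linarith) 8
        _ ≤ ∫ v, (9 / 8) ^ 8 * KJ L v :=
            setIntegral_le_integral ((KJ_int hL0).const_mul _)
              (Eventually.of_forall fun v => mul_nonneg (by positivity) (KJ_nonneg hL0 v))
        _ = C₃ := by rw [integral_const_mul, KJ_tot hL0]
    have h15 : C₂ / L ^ 15 ≤ C₂ := div_le_self p2 (one_le_pow₀ hL)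
    rw [hsplit]
    linarith

end Pool.Agent.Helper47.QL
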